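import Pool.Agent.Q93.Loc.Main

/-!
A maximal monotone operator on a normed space which is located by the closure of an open half-space
but not by the half-space itself.
-/

set_option autoImplicit false

namespace Pool.Agent.Results.MP_ddf116_an.ClosureLocatesOnly

open Q93.Loc

/-- **There are a real normed space `X`, a (maximal) monotone operator `T : X ⇉ X*` and an open
convex set `V ⊆ X` meeting the domain of `T` such that the closure of `V` locates `T` but `V` does
not locate `T`.** -/
theorem result : ∃ (X : Type) (_ : NormedAddCommGroup X) (_ : NormedSpace ℝ X)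
    (T : Set (X × (X →L[ℝ] ℝ))) (V : Set X),
    IsMaximalMonotoneOp T ∧ IsOpen V ∧ Convex ℝ V ∧ (V ∩ dom T).Nonempty ∧
      Locates (closure V) T ∧ ¬ Locates V T :=
  ⟨Poly, inferInstance, inferInstance, NK, V, NK_maximal, isOpen_V, convex_V,
    ⟨cst 1, one_mem_V, 0, mem_NK_zero fun t _ => by rw [ev_cst]; norm_num⟩,
    closure_locates, not_locates⟩

end Pool.Agent.Results.MP_ddf116_an.ClosureLocatesOnly
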